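import Mathlib
import Pool.Agent.X102.LapHol
import Pool.Agent.Y80.EL.Log

set_option autoImplicit false

open Filter Topology Set Metric MeasureTheory Laplacian InnerProductSpace
open scoped ContDiff

namespace Pool.Agent.Results.MP_ad2fa1_an.NonRadial

/-- `f(t) = e^{2t} p(e^t)`. -/
noncomputable def fOf (p : ℝ → ℝ) (t : ℝ) : ℝ := Real.exp (2 * t) * p (Real.exp t)

/-- `g(u) = q(e^u)`. -/
noncomputable def gOf (q : ℝ → ℝ) (u : ℝ) : ℝ := q (Real.exp u)

/-- `G₀(u) = ∫_{-∞}^u g`. -/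
noncomputable def G0 (g : ℝ → ℝ) (u : ℝ) : ℝ := ∫ s in Iic u, g s

/-- Hypotheses (H1)-(H8) of the problem for `f = fOf p`, `g = gOf q`. -/
structure Hypotheses (p q : ℝ → ℝ) : Prop where
  h1_f : ContDiff ℝ 1 (fOf p)
  h1_g : ContDiff ℝ 1 (gOf q)
  h1_int : IntegrableOn (fun t => |t * fOf p t|) (Iic 0)
  h1_bdd : ∃ C : ℝ, ∀ u : ℝ, |gOf q u| + |deriv (gOf q) u| ≤ C
  h2_pos : ∀ t, 0 < fOf p t
  h2_lim : Tendsto (fOf p) atTop atTop
  h2_g0 : gOf q 0 = 0
  h2_gpos : ∀ u < 0, 0 < gOf q u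
  h3 : ∀ t, 0 ≤ deriv (fOf p) t
  h4 : ∃ M > 0, (∀ u < -M, 0 < deriv (gOf q) u) ∧
    IntegrableOn (fun t => fOf p t * gOf q (-M * t)) (Ioi 0)
  h5_div : ¬ IntegrableOn (fun t => fOf p t * gOf q
    (-(sInf {M : ℝ | 0 < M ∧ IntegrableOn (fun t => fOf p t * gOf q (-M * t)) (Ioi 0)}) * t)) (Ioi 0)
  h5_inf : ∀ c > 0, ∃ ε > 0, ∀ t > 0, ε ≤ fOf p (t - c) / fOf p t
  h6_int : ∀ u, IntegrableOn (gOf q) (Iic u)
  h6_h7 : ∃ f₁ g₁ : ℝ,
    Tendsto (fun t => deriv (fOf p) t / fOf p t) atTop (𝓝 f₁) ∧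
    Tendsto (fun u => G0 (gOf q) u / gOf q u) atBot (𝓝 g₁) ∧
    (∀ t, f₁ ≤ deriv (fOf p) t / fOf p t) ∧
    (∀ u < 0, g₁ ≤ G0 (gOf q) u / gOf q u)
  h8 : ∃ δ > 0, ∀ u ∈ Icc (-δ) 0, deriv (gOf q) u ≤ 0

/-- `u` solves `Δu + p(|x|) q(e^u) = 4πN δ` on `ℝ² = ℂ` in the sense of distributions, is locally
integrable and smooth away from the origin. -/
structure IsSolution (N : ℝ) (p q : ℝ → ℝ) (u : ℂ → ℝ) : Prop where
  locInt : LocallyIntegrable u
  smooth : ContDiffOn ℝ ∞ u {0}ᶜ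
  locInt_rhs : LocallyIntegrable (fun z : ℂ => p ‖z‖ * q (Real.exp (u z)))
  equation : ∀ φ : ℂ → ℝ, ContDiff ℝ ∞ φ → HasCompactSupport φ →
    (∫ z : ℂ, u z * Δ φ z) + ∫ z : ℂ, (p ‖z‖ * q (Real.exp (u z))) * φ z = 4 * Real.pi * N * φ 0

/-- `u` (on the plane without the origin) depends only on the distance to `x₀`. -/
def RadialAbout (x₀ : ℂ) (u : ℂ → ℝ) : Prop :=
  ∀ x y : ℂ, x ≠ 0 → y ≠ 0 → ‖x - x₀‖ = ‖y - x₀‖ → u x = u y

/-! ### The nonlinearity -/

/-- the rational profile -/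
noncomputable def R (s : ℝ) : ℝ := (1 + s - 2 * s ^ 2) / (1 + s ^ 2)

/-- its derivative -/
noncomputable def R' (s : ℝ) : ℝ := (1 - 6 * s - s ^ 2) / (1 + s ^ 2) ^ 2

lemma hasDerivAt_R (s : ℝ) : HasDerivAt R (R' s) s := by
  unfold R R'
  have h1 : HasDerivAt (fun s : ℝ => 1 + s - 2 * s ^ 2) (1 - 4 * s) s := by
    have := ((hasDerivAt_id s).const_add 1).sub (((hasDerivAt_id s).pow 2).const_mul 2)
    refine this.congr_deriv ?_
    simp
    ring
  have h2 : HasDerivAt (fun s : ℝ => 1 + s ^ 2) (2 * s) s := by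
    have := ((hasDerivAt_id s).pow 2).const_add 1
    refine this.congr_deriv ?_
    simp
  refine (h1.div h2 (by positivity)).congr_deriv ?_
  congr 1
  ring

/-- the nonlinearity in the variable `u` -/
noncomputable def g (u : ℝ) : ℝ := if u ≤ -1 then Real.exp u else Real.exp (-1) * R (u + 1)

/-- its derivative -/
noncomputable def g' (u : ℝ) : ℝ := if u ≤ -1 then Real.exp u else Real.exp (-1) * R' (u + 1)

/-- the nonlinearity -/
noncomputable def q (s : ℝ) : ℝ := g (Real.log s)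

lemma gOf_q : gOf q = g := by
  ext u; simp [gOf, q, Real.log_exp]

lemma hasDerivAt_ite {f₁ f₂ : ℝ → ℝ} {a f' : ℝ} (h1 : HasDerivAt f₁ f' a)
    (h2 : HasDerivAt f₂ f' a) (h : f₁ a = f₂ a) :
    HasDerivAt (fun x => if x ≤ a then f₁ x else f₂ x) f' a := by
  rw [← hasDerivWithinAt_univ, ← Iic_union_Ici (a := a)]
  apply HasDerivWithinAt.union
  · refine h1.hasDerivWithinAt.congr (fun x hx => if_pos hx) (if_pos le_rfl)
  · refine h2.hasDerivWithinAt.congr (fun x hx => ?_) ?_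
    · rcases (show a ≤ x from hx).eq_or_lt with rfl | h3
      · simp [h]
      · exact if_neg (not_le.mpr h3)
    · simp [h]

lemma hasDerivAt_g_right (u : ℝ) :
    HasDerivAt (fun u => Real.exp (-1) * R (u + 1)) (Real.exp (-1) * R' (u + 1)) u := by
  have := ((hasDerivAt_R (u + 1)).comp_add_const u 1).const_mul (Real.exp (-1))
  exact this

lemma hasDerivAt_g (u : ℝ) : HasDerivAt g (g' u) u := by
  rcases lt_trichotomy u (-1) with h | h | h
  · have h1 : g' u = Real.exp u := if_pos h.le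
    rw [h1]
    refine (Real.hasDerivAt_exp u).congr_of_eventuallyEq ?_
    filter_upwards [Iio_mem_nhds h] with x hx
    exact if_pos (le_of_lt hx)
  · subst h
    have h1 : g' (-1) = Real.exp (-1) := if_pos le_rfl
    rw [h1]
    apply hasDerivAt_ite (Real.hasDerivAt_exp (-1))
    · have := hasDerivAt_g_right (-1)
      refine this.congr_deriv ?_
      simp [R']
    · simp [R]
  · have h1 : g' u = Real.exp (-1) * R' (u + 1) := if_neg (not_le.mpr h)
    rw [h1]
    refine (hasDerivAt_g_right u).congr_of_eventuallyEq ?_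
    filter_upwards [Ioi_mem_nhds h] with x hx
    exact if_neg (not_le.mpr hx)

lemma continuous_R' : Continuous R' := by
  unfold R'
  apply Continuous.div (by fun_prop) (by fun_prop)
  intro s; positivity

lemma continuous_g' : Continuous g' := by
  unfold g'
  apply Continuous.if_le Real.continuous_exp _ continuous_id continuous_const
  · intro x hx
    have hx' : x = -1 := hx
    subst hx'
    simp [R']
  · exact continuous_const.mul (continuous_R'.comp (by fun_prop))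

lemma deriv_g : deriv g = g' := funext fun u => (hasDerivAt_g u).deriv

lemma contDiff_g : ContDiff ℝ 1 g := by
  rw [contDiff_one_iff_deriv]
  refine ⟨fun u => (hasDerivAt_g u).differentiableAt, ?_⟩
  rw [deriv_g]
  exact continuous_g'

lemma continuous_g : Continuous g := contDiff_g.continuous

lemma abs_R_le (s : ℝ) : |R s| ≤ 3 := by
  unfold R
  rw [abs_div, abs_of_pos (by positivity : 0 < 1 + s ^ 2), div_le_iff₀ (by positivity), abs_le]
  constructor <;> nlinarith [sq_nonneg (s - 1), sq_nonneg (s + 1), sq_nonneg s]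

lemma abs_R'_le (s : ℝ) : |R' s| ≤ 5 := by
  unfold R'
  rw [abs_div, abs_of_pos (by positivity : 0 < (1 + s ^ 2) ^ 2), div_le_iff₀ (by positivity), abs_le]
  constructor <;> nlinarith [sq_nonneg (s - 1), sq_nonneg (s + 1), sq_nonneg s, sq_nonneg (s ^ 2)]

lemma exp_neg_one_lt : Real.exp (-1) < 1 := by
  rw [← Real.exp_zero]; exact Real.exp_lt_exp.mpr (by norm_num)

lemma abs_g_le (u : ℝ) : |g u| ≤ 3 := by
  unfold g
  split_ifs with h
  · rw [abs_of_pos (Real.exp_pos u)]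
    have : Real.exp u ≤ Real.exp 0 := Real.exp_le_exp.mpr (by linarith)
    rw [Real.exp_zero] at this
    linarith
  · rw [abs_mul, abs_of_pos (Real.exp_pos _)]
    have := abs_R_le (u + 1)
    have h1 := exp_neg_one_lt
    have h2 := Real.exp_pos (-1)
    nlinarith [abs_nonneg (R (u + 1))]

lemma abs_g'_le (u : ℝ) : |g' u| ≤ 5 := by
  unfold g'
  split_ifs with h
  · rw [abs_of_pos (Real.exp_pos u)]
    have : Real.exp u ≤ Real.exp 0 := Real.exp_le_exp.mpr (by linarith)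
    rw [Real.exp_zero] at this
    linarith
  · rw [abs_mul, abs_of_pos (Real.exp_pos _)]
    have := abs_R'_le (u + 1)
    have h1 := exp_neg_one_lt
    have h2 := Real.exp_pos (-1)
    nlinarith [abs_nonneg (R' (u + 1))]

lemma g_zero : g 0 = 0 := by
  unfold g
  rw [if_neg (by norm_num)]
  simp [R]
  norm_num

lemma g_pos {u : ℝ} (hu : u < 0) : 0 < g u := by
  unfold g
  split_ifs with h
  · exact Real.exp_pos u
  · apply mul_pos (Real.exp_pos _)
    unfold R
    apply div_pos _ (by positivity)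
    have h1 : 0 < u + 1 := by linarith [not_le.mp h]
    nlinarith

lemma g_of_le {u : ℝ} (hu : u ≤ -1) : g u = Real.exp u := if_pos hu

/-- `g' ≤ g` on the negative half line -/
lemma g'_le_g {u : ℝ} (hu : u ≤ 0) : g' u ≤ g u := by
  unfold g g'
  split_ifs with h
  · exact le_rfl
  · apply mul_le_mul_of_nonneg_left _ (Real.exp_pos _).le
    unfold R R'
    have h1 : 0 < u + 1 := by linarith [not_le.mp h]
    have h2 : u + 1 ≤ 1 := by linarith
    set s := u + 1
    rw [div_le_div_iff₀ (by positivity) (by positivity)]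
    have h3 : (1 - 6 * s - s ^ 2) ≤ (1 + s - 2 * s ^ 2) * (1 + s ^ 2) := by
      have : (1 + s - 2 * s ^ 2) * (1 + s ^ 2) - (1 - 6 * s - s ^ 2)
        = s * (7 + s ^ 2 * (1 - 2 * s)) := by ring
      have h4 : 0 ≤ 7 + s ^ 2 * (1 - 2 * s) := by nlinarith [sq_nonneg s]
      have h5 := mul_nonneg h1.le h4
      linarith
    have h4 : 0 < 1 + s ^ 2 := by positivity
    nlinarith [mul_le_mul_of_nonneg_right h3 h4.le]

lemma int_g (u : ℝ) : IntegrableOn g (Iic u) := by
  have h1 : IntegrableOn g (Iic (-1)) := by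
    refine (integrableOn_exp_Iic (-1)).congr_fun (fun x hx => ?_) measurableSet_Iic
    exact (g_of_le hx).symm
  rcases le_total u (-1) with h | h
  · exact h1.mono_set (Iic_subset_Iic.mpr h)
  · have h2 : IntegrableOn g (Icc (-1) u) := continuous_g.continuousOn.integrableOn_Icc
    have h3 := h1.union h2
    refine h3.mono_set ?_
    intro x hx
    rcases le_total x (-1) with hx1 | hx1
    · left; exact hx1
    · right; exact ⟨hx1, hx⟩

lemma G0_of_le {u : ℝ} (hu : u ≤ -1) : G0 g u = Real.exp u := by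
  unfold G0
  rw [setIntegral_congr_fun measurableSet_Iic (g := Real.exp)
    (fun x hx => g_of_le ((show x ≤ u from hx).trans hu))]
  exact integral_exp_Iic u

lemma g_le_G0 {u : ℝ} (hu : u < 0) : g u ≤ G0 g u := by
  rcases le_total u (-1) with h | h
  · rw [G0_of_le h, g_of_le h]
  · have h1 : G0 g u = G0 g (-1) + ∫ s in (-1)..u, g s := by
      have := intervalIntegral.integral_Iic_sub_Iic (int_g (-1)) (int_g u)
      unfold G0
      linarith
    have h2 : ∫ s in (-1)..u, g' s = g u - g (-1) :=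
      intervalIntegral.integral_eq_sub_of_hasDerivAt (fun x _ => hasDerivAt_g x)
        (continuous_g'.intervalIntegrable _ _)
    have h3 : ∫ s in (-1)..u, g' s ≤ ∫ s in (-1)..u, g s := by
      apply intervalIntegral.integral_mono_on h (continuous_g'.intervalIntegrable _ _)
        (continuous_g.intervalIntegrable _ _)
      intro x hx
      exact g'_le_g (hx.2.trans hu.le)
    have h4 : G0 g (-1) = g (-1) := by rw [G0_of_le le_rfl, g_of_le le_rfl]
    linarith

/-! ### The hypotheses -/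

/-- the weight -/
noncomputable def P (c b : ℝ) (r : ℝ) : ℝ := c * r ^ (2 * b)

lemma fOf_P (c b : ℝ) : fOf (P c b) = fun t => c * Real.exp ((2 + 2 * b) * t) := by
  ext t
  unfold fOf P
  rw [← Real.exp_mul, mul_left_comm, ← Real.exp_add]
  congr 2
  ring

lemma deriv_exp_lin (c l t : ℝ) :
    HasDerivAt (fun t => c * Real.exp (l * t)) (l * (c * Real.exp (l * t))) t := by
  have h1 := (((hasDerivAt_id t).const_mul l).exp).const_mul c
  refine h1.congr_deriv ?_
  simp
  ring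

lemma abs_g_le_exp {u : ℝ} (hu : u ≤ 0) : |g u| ≤ 3 * Real.exp (u + 1) := by
  rcases le_total u (-1) with h | h
  · rw [g_of_le h, abs_of_pos (Real.exp_pos u)]
    have : Real.exp u ≤ Real.exp (u + 1) := Real.exp_le_exp.mpr (by linarith)
    have := Real.exp_pos u
    linarith
  · have h1 := abs_g_le u
    have h2 : 1 ≤ Real.exp (u + 1) := Real.one_le_exp (by linarith)
    linarith

lemma intOn_of_lt {c l M : ℝ} (hM0 : 0 < M) (hM : l < M) :
    IntegrableOn (fun t => (c * Real.exp (l * t)) * g (-M * t)) (Ioi 0) := by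
  have h1 : IntegrableOn (fun t : ℝ => (|c| * (3 * Real.exp 1)) * Real.exp ((l - M) * t)) (Ioi 0) :=
    (integrableOn_exp_mul_Ioi (by linarith) 0).const_mul _
  refine h1.mono' ?_ ?_
  · apply Continuous.aestronglyMeasurable
    have := continuous_g
    fun_prop
  · rw [ae_restrict_iff' measurableSet_Ioi]
    refine Eventually.of_forall fun t ht => ?_
    have ht' : 0 < t := ht
    have h2 := abs_g_le_exp (u := -M * t) (by nlinarith)
    rw [norm_mul, Real.norm_eq_abs, Real.norm_eq_abs, abs_mul, abs_of_pos (Real.exp_pos _)]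
    calc |c| * Real.exp (l * t) * |g (-M * t)|
        ≤ |c| * Real.exp (l * t) * (3 * Real.exp (-M * t + 1)) := by
          apply mul_le_mul_of_nonneg_left h2
          positivity
      _ = |c| * (3 * Real.exp 1) * Real.exp ((l - M) * t) := by
          rw [Real.exp_add, show (l - M) * t = l * t + -M * t by ring, Real.exp_add]
          ring

lemma not_intOn_of_le {c l M : ℝ} (hc : 0 < c) (hM0 : 0 < M) (hM : M ≤ l) :
    ¬ IntegrableOn (fun t => (c * Real.exp (l * t)) * g (-M * t)) (Ioi 0) := by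
  intro H
  have h1 : IntegrableOn (fun _ : ℝ => c) (Ici (1 / M)) := by
    have h2 : IntegrableOn (fun t => (c * Real.exp (l * t)) * g (-M * t)) (Ici (1 / M)) :=
      H.mono_set (fun t ht => lt_of_lt_of_le (by positivity) (show 1 / M ≤ t from ht))
    refine Integrable.mono' h2 aestronglyMeasurable_const ?_
    rw [ae_restrict_iff' measurableSet_Ici]
    refine Eventually.of_forall fun t ht => ?_
    have ht' : 1 / M ≤ t := ht
    have ht0 : 0 < t := lt_of_lt_of_le (by positivity) ht'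
    have h3 : 1 ≤ M * t := by
      have := mul_le_mul_of_nonneg_left ht' hM0.le
      rwa [mul_one_div_cancel hM0.ne'] at this
    rw [g_of_le (by linarith), Real.norm_of_nonneg hc.le, mul_assoc, ← Real.exp_add]
    have h4 : 1 ≤ Real.exp (l * t + -M * t) := by
      rw [← Real.exp_zero]
      apply Real.exp_le_exp.mpr
      nlinarith
    nlinarith
  rw [integrableOn_const_iff] at h1
  rcases h1 with h1 | h1
  · rw [enorm_eq_zero] at h1
    exact hc.ne' h1
  · rw [Real.volume_Ici] at h1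
    exact lt_irrefl _ h1

lemma hyp (c b : ℝ) (hc : 0 < c) (hb : -1 < b) : Hypotheses (P c b) q := by
  have hl : 0 < 2 + 2 * b := by linarith
  set l := 2 + 2 * b with hldef
  have hf : fOf (P c b) = fun t => c * Real.exp (l * t) := fOf_P c b
  have hdf : deriv (fun t => c * Real.exp (l * t)) = fun t => l * (c * Real.exp (l * t)) :=
    funext fun t => (deriv_exp_lin c l t).deriv
  have hset : {M : ℝ | 0 < M ∧ IntegrableOn (fun t => (c * Real.exp (l * t)) * g (-M * t)) (Ioi 0)}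
      = Ioi l := by
    ext M
    constructor
    · rintro ⟨h1, h2⟩
      by_contra h3
      exact not_intOn_of_le hc h1 (not_lt.mp h3) h2
    · intro h
      have h' : l < M := h
      exact ⟨hl.trans h', intOn_of_lt (hl.trans h') h'⟩
  constructor
  · rw [hf]; fun_prop
  · rw [gOf_q]; exact contDiff_g
  · rw [hf]
    have h1 : IntegrableOn (fun t : ℝ => (c * (2 / l)) * Real.exp ((l / 2) * t)) (Iic 0) :=
      (integrableOn_exp_mul_Iic (by positivity) 0).const_mul _
    refine h1.mono' ?_ ?_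
    · apply Continuous.aestronglyMeasurable
      fun_prop
    · rw [ae_restrict_iff' measurableSet_Iic]
      refine Eventually.of_forall fun t ht => ?_
      have ht' : t ≤ 0 := ht
      rw [Real.norm_eq_abs, abs_abs, abs_mul, abs_mul, abs_of_pos hc, abs_of_pos (Real.exp_pos _),
        abs_of_nonpos ht']
      have h2 : -t * (l / 2) ≤ Real.exp (-t * (l / 2)) := by
        have := Real.add_one_le_exp (-t * (l / 2))
        linarith
      have h3 : -t ≤ (2 / l) * Real.exp (-t * (l / 2)) := by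
        have h4 : -t = (2 / l) * (-t * (l / 2)) := by field_simp
        calc -t = (2 / l) * (-t * (l / 2)) := h4
          _ ≤ _ := mul_le_mul_of_nonneg_left h2 (by positivity)
      have h5 : Real.exp (-t * (l / 2)) * Real.exp (l * t) = Real.exp ((l / 2) * t) := by
        rw [← Real.exp_add]; congr 1; ring
      calc -t * (c * Real.exp (l * t)) ≤ ((2 / l) * Real.exp (-t * (l / 2))) * (c * Real.exp (l * t)) := by
            apply mul_le_mul_of_nonneg_right h3
            positivity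
        _ = c * (2 / l) * (Real.exp (-t * (l / 2)) * Real.exp (l * t)) := by ring
        _ = c * (2 / l) * Real.exp (l / 2 * t) := by rw [h5]
  · refine ⟨8, fun u => ?_⟩
    rw [gOf_q, deriv_g]
    have := abs_g_le u
    have := abs_g'_le u
    linarith
  · intro t; rw [hf]; positivity
  · rw [hf]
    apply Tendsto.const_mul_atTop hc
    exact Real.tendsto_exp_atTop.comp (tendsto_id.const_mul_atTop hl)
  · rw [gOf_q]; exact g_zero
  · intro u hu; rw [gOf_q]; exact g_pos hu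
  · intro t
    rw [hf, hdf]
    positivity
  · refine ⟨l + 1, by linarith, fun u hu => ?_, ?_⟩
    · rw [gOf_q, deriv_g]
      have : u ≤ -1 := by linarith
      unfold g'
      rw [if_pos this]
      exact Real.exp_pos u
    · rw [hf, gOf_q]
      exact intOn_of_lt (by linarith) (by linarith)
  · rw [hf, gOf_q, hset, csInf_Ioi]
    exact not_intOn_of_le hc hl le_rfl
  · intro d _
    refine ⟨Real.exp (-(l * d)), Real.exp_pos _, fun t _ => ?_⟩
    rw [hf]
    apply le_of_eq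
    simp only
    rw [mul_div_mul_left _ _ hc.ne', ← Real.exp_sub]
    congr 1
    ring
  · rw [gOf_q]; exact int_g
  · refine ⟨l, 1, ?_, ?_, ?_, ?_⟩
    · rw [hf, hdf]
      have : (fun t => l * (c * Real.exp (l * t)) / (c * Real.exp (l * t))) = fun _ => l := by
        ext t
        have : c * Real.exp (l * t) ≠ 0 := by positivity
        field_simp
      rw [this]
      exact tendsto_const_nhds
    · rw [gOf_q]
      refine (tendsto_const_nhds).congr' ?_
      filter_upwards [eventually_le_atBot (-1)] with u hu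
      rw [G0_of_le hu, g_of_le hu, div_self (Real.exp_pos u).ne']
    · intro t
      rw [hf, hdf]
      simp only
      have : c * Real.exp (l * t) ≠ 0 := by positivity
      rw [mul_div_assoc, div_self this, mul_one]
    · intro u hu
      rw [gOf_q, le_div_iff₀ (g_pos hu), one_mul]
      exact g_le_G0 hu
  · refine ⟨1 / 2, by norm_num, fun u hu => ?_⟩
    rw [gOf_q, deriv_g]
    unfold g'
    rw [if_neg (by linarith [hu.1])]
    apply mul_nonpos_of_nonneg_of_nonpos (Real.exp_pos _).le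
    unfold R'
    apply div_nonpos_of_nonpos_of_nonneg _ (by positivity)
    have := hu.1
    nlinarith

/-! ### The solution -/

open Pool.Agent.X102

/-- the regular part -/
noncomputable def v (m : ℕ) (z : ℂ) : ℝ :=
  -1 - Real.log 2 - 2 * Real.log (1 + ‖z ^ (m + 1) - 1‖ ^ 2)

/-- the solution -/
noncomputable def u (N : ℝ) (m : ℕ) (z : ℂ) : ℝ := 2 * N * Real.log ‖z‖ + v m z

lemma two_le_inf : (2 : WithTop ℕ∞) ≤ ∞ := WithTop.coe_le_coe.mpr le_top

lemma pos1 (m : ℕ) (z : ℂ) : 0 < 1 + ‖z ^ (m + 1) - 1‖ ^ 2 := by positivity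

lemma contDiff_pow_sub (m : ℕ) : ContDiff ℝ ∞ (fun z : ℂ => z ^ (m + 1) - 1) := by fun_prop

lemma contDiff_v (m : ℕ) : ContDiff ℝ ∞ (v m) := by
  unfold v
  apply ContDiff.sub contDiff_const
  apply ContDiff.mul contDiff_const
  apply ContDiff.log
  · exact contDiff_const.add ((contDiff_pow_sub m).norm_sq ℝ)
  · intro z; exact (pos1 m z).ne'

lemma laplacian_v (m : ℕ) (z : ℂ) :
    Δ (v m) z = -(8 * (m + 1 : ℝ) ^ 2 * ‖z‖ ^ (2 * m) / (1 + ‖z ^ (m + 1) - 1‖ ^ 2) ^ 2) := by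
  have hd1 : ∀ w : ℂ, HasDerivAt (fun w : ℂ => w ^ (m + 1) - 1) (((m + 1 : ℕ) : ℂ) * w ^ m) w := by
    intro w
    have := (hasDerivAt_pow (m + 1) w).sub_const 1
    simpa using this
  have hd2 : HasDerivAt (fun w : ℂ => ((m + 1 : ℕ) : ℂ) * w ^ m)
      (((m + 1 : ℕ) : ℂ) * ((m : ℂ) * z ^ (m - 1))) z :=
    (hasDerivAt_pow m z).const_mul _
  have h1 := laplacian_log_one_add (F := fun w : ℂ => w ^ (m + 1) - 1)
    (F' := fun w => ((m + 1 : ℕ) : ℂ) * w ^ m)
    (F'' := fun w => ((m + 1 : ℕ) : ℂ) * ((m : ℂ) * w ^ (m - 1))) (z := z)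
    (Eventually.of_forall hd1) hd2 ((contDiff_pow_sub m).of_le two_le_inf).contDiffAt
  have hc : ContDiffAt ℝ 2 (fun w : ℂ => Real.log (1 + ‖w ^ (m + 1) - 1‖ ^ 2)) z := by
    apply ContDiffAt.log
    · exact contDiffAt_const.add ((((contDiff_pow_sub m).of_le two_le_inf).contDiffAt).norm_sq ℝ)
    · exact (pos1 m z).ne'
  have h2 : v m = (fun _ : ℂ => (-1 - Real.log 2 : ℝ)) + (-2 : ℝ) • (fun w : ℂ => Real.log (1 + ‖w ^ (m + 1) - 1‖ ^ 2)) := by
    ext w
    simp [v]
    ring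
  have hc' : ContDiffAt ℝ 2 ((-2 : ℝ) • (fun w : ℂ => Real.log (1 + ‖w ^ (m + 1) - 1‖ ^ 2))) z :=
    hc.const_smul (-2 : ℝ)
  have hc0 : ContDiffAt ℝ 2 (fun _ : ℂ => (-1 - Real.log 2 : ℝ)) z := contDiffAt_const
  rw [h2, hc0.laplacian_add hc', laplacian_smul _ hc, h1]
  simp only [laplacian_const, Pi.zero_apply, zero_add, smul_eq_mul]
  rw [norm_mul, norm_pow, mul_pow, ← pow_mul, mul_comm m 2]
  have h3 : ‖((m + 1 : ℕ) : ℂ)‖ = (m + 1 : ℝ) := by
    rw [Complex.norm_natCast]; push_cast; ring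
  rw [h3]
  ring

/-- the basic bound -/
lemma rpow_le {N : ℝ} {m : ℕ} (hN : 0 ≤ N) (hNm : N ≤ m + 1) {z : ℂ} (hz : z ≠ 0) :
    ‖z‖ ^ (2 * N) ≤ 2 * (1 + ‖z ^ (m + 1) - 1‖ ^ 2) ^ 2 := by
  have hz0 : 0 < ‖z‖ := norm_pos_iff.mpr hz
  have hp : 0 ≤ ‖z ^ (m + 1) - 1‖ ^ 2 := by positivity
  rcases le_total ‖z‖ 1 with h | h
  · have h1 : ‖z‖ ^ (2 * N) ≤ 1 := Real.rpow_le_one hz0.le h (by linarith)
    nlinarith
  · have h1 : ‖z‖ ^ (2 * N) ≤ ‖z‖ ^ (2 * ((m + 1 : ℕ) : ℝ)) := by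
      apply Real.rpow_le_rpow_of_exponent_le h
      push_cast; linarith
    have h2 : ‖z‖ ^ (2 * ((m + 1 : ℕ) : ℝ)) = (‖z‖ ^ (m + 1)) ^ 2 := by
      rw [mul_comm, Real.rpow_mul hz0.le, Real.rpow_natCast]
      norm_cast
    have h3 : ‖z‖ ^ (m + 1) ≤ ‖z ^ (m + 1) - 1‖ + 1 := by
      rw [← norm_pow]
      calc ‖z ^ (m + 1)‖ = ‖(z ^ (m + 1) - 1) + 1‖ := by ring_nf
        _ ≤ ‖z ^ (m + 1) - 1‖ + ‖(1 : ℂ)‖ := norm_add_le _ _
        _ = _ := by rw [norm_one]
    have h4 : 0 ≤ ‖z‖ ^ (m + 1) := by positivity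
    have h5 : (‖z‖ ^ (m + 1)) ^ 2 ≤ 2 * (1 + ‖z ^ (m + 1) - 1‖ ^ 2) := by
      have h6 : (‖z‖ ^ (m + 1)) ^ 2 ≤ (‖z ^ (m + 1) - 1‖ + 1) ^ 2 := pow_le_pow_left₀ h4 h3 2
      nlinarith [sq_nonneg (‖z ^ (m + 1) - 1‖ - 1)]
    nlinarith

lemma exp_u {N : ℝ} {m : ℕ} {z : ℂ} (hz : z ≠ 0) :
    Real.exp (u N m z) = ‖z‖ ^ (2 * N) * (Real.exp (-1) / 2) / (1 + ‖z ^ (m + 1) - 1‖ ^ 2) ^ 2 := by
  have hz0 : 0 < ‖z‖ := norm_pos_iff.mpr hz
  unfold u v
  rw [Real.exp_add, show (2 * N * Real.log ‖z‖) = Real.log ‖z‖ * (2 * N) by ring,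
    ← Real.rpow_def_of_pos hz0]
  rw [show (-1 - Real.log 2 - 2 * Real.log (1 + ‖z ^ (m + 1) - 1‖ ^ 2))
    = -1 - Real.log 2 - Real.log ((1 + ‖z ^ (m + 1) - 1‖ ^ 2) ^ 2) by
      rw [Real.log_pow]; push_cast; ring]
  rw [Real.exp_sub, Real.exp_sub, Real.exp_log (by norm_num), Real.exp_log (by positivity)]
  ring

lemma u_le {N : ℝ} {m : ℕ} (hN : 0 ≤ N) (hNm : N ≤ m + 1) {z : ℂ} (hz : z ≠ 0) :
    u N m z ≤ -1 := by
  rw [← Real.exp_le_exp, exp_u hz, div_le_iff₀ (by positivity)]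
  have h1 := rpow_le hN hNm hz
  have h2 := Real.exp_pos (-1)
  nlinarith

lemma rhs_eq {N b : ℝ} {m : ℕ} (hN : 0 ≤ N) (hNm : N ≤ m + 1) (hmb : (m : ℝ) = N + b)
    {z : ℂ} (hz : z ≠ 0) :
    P (16 * (m + 1 : ℝ) ^ 2 * Real.exp 1) b ‖z‖ * q (Real.exp (u N m z)) = - Δ (v m) z := by
  have hz0 : 0 < ‖z‖ := norm_pos_iff.mpr hz
  rw [laplacian_v, neg_neg]
  unfold q P
  rw [Real.log_exp, g_of_le (u_le hN hNm hz), exp_u hz]
  have h1 : ‖z‖ ^ (2 * m) = ‖z‖ ^ (2 * b) * ‖z‖ ^ (2 * N) := by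
    rw [← Real.rpow_add hz0, ← Real.rpow_natCast]
    congr 1
    push_cast
    rw [hmb]; ring
  have h2 : Real.exp 1 * Real.exp (-1) = 1 := by rw [← Real.exp_add]; simp
  rw [h1]
  have h3 : 16 * (m + 1 : ℝ) ^ 2 * Real.exp 1 * ‖z‖ ^ (2 * b) *
      (‖z‖ ^ (2 * N) * (Real.exp (-1) / 2) / (1 + ‖z ^ (m + 1) - 1‖ ^ 2) ^ 2)
      = (Real.exp 1 * Real.exp (-1)) * (8 * (m + 1 : ℝ) ^ 2 * (‖z‖ ^ (2 * b) * ‖z‖ ^ (2 * N))
        / (1 + ‖z ^ (m + 1) - 1‖ ^ 2) ^ 2) := by ring
  rw [h3, h2, one_mul]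

lemma locInt_log : LocallyIntegrable (fun z : ℂ => Real.log ‖z‖) := Pool.Agent.Y80.EL.locInt_log0

lemma ae_ne_zero : ∀ᵐ z : ℂ, z ≠ 0 := by
  rw [ae_iff]
  simp

lemma isSolution {N b : ℝ} {m : ℕ} (hN : 0 ≤ N) (hNm : N ≤ m + 1) (hmb : (m : ℝ) = N + b) :
    IsSolution N (P (16 * (m + 1 : ℝ) ^ 2 * Real.exp 1) b) q (u N m) where
  locInt := by
    have h1 := locInt_log.smul (2 * N)
    have h2 : LocallyIntegrable (v m) := (contDiff_v m).continuous.locallyIntegrable
    exact h1.add h2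
  smooth := by
    intro z hz
    have hz0 : z ≠ 0 := hz
    apply ContDiffAt.contDiffWithinAt
    unfold u
    apply ContDiffAt.add
    · apply ContDiffAt.mul contDiffAt_const
      apply ContDiffAt.log
      · exact contDiffAt_norm ℝ hz0
      · exact norm_ne_zero_iff.mpr hz0
    · exact (contDiff_v m).contDiffAt
  locInt_rhs := by
    have h1 : LocallyIntegrable (fun z : ℂ => - Δ (v m) z) := by
      have h2 : Continuous (Δ (v m)) :=
        Pool.Agent.Y80.EL.continuous_laplacian ((contDiff_v m).of_le two_le_inf)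
      exact (h2.neg).locallyIntegrable
    intro z
    obtain ⟨s, hs, hi⟩ := h1 z
    refine ⟨s, hs, hi.congr ?_⟩
    filter_upwards [ae_restrict_of_ae ae_ne_zero] with x hx
    exact (rhs_eq hN hNm hmb hx).symm
  equation := by
    intro φ hφ hc
    have hφ2 : ContDiff ℝ 2 φ := hφ.of_le two_le_inf
    have hv2 : ContDiff ℝ 2 (v m) := (contDiff_v m).of_le two_le_inf
    have hΔ : Continuous (Δ φ) := Pool.Agent.Y80.EL.continuous_laplacian hφ2
    have hΔc : HasCompactSupport (Δ φ) := Pool.Agent.Y80.EL.hasCompactSupport_laplacian hφ2 hc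
    have h1 : ∫ z : ℂ, (P (16 * (m + 1 : ℝ) ^ 2 * Real.exp 1) b ‖z‖ * q (Real.exp (u N m z))) * φ z
        = - ∫ z : ℂ, Δ (v m) z * φ z := by
      rw [← integral_neg]
      apply integral_congr_ae
      filter_upwards [ae_ne_zero] with z hz
      rw [rhs_eq hN hNm hmb hz]
      ring
    have h2 : ∫ z : ℂ, v m z * Δ φ z = ∫ z : ℂ, Δ (v m) z * φ z :=
      Pool.Agent.H314.CS.LL.green hv2 hφ2 hc
    have h3 : ∫ z : ℂ, Real.log ‖z‖ * Δ φ z = 2 * Real.pi * φ 0 :=
      Pool.Agent.Y80.EL.integral_log_laplacian hφ2 hc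
    have i1 : Integrable (fun z : ℂ => Real.log ‖z‖ * Δ φ z) := by
      have := locInt_log.integrable_smul_right_of_hasCompactSupport hΔ hΔc
      simpa [smul_eq_mul] using this
    have i2 : Integrable (fun z : ℂ => v m z * Δ φ z) := by
      apply Continuous.integrable_of_hasCompactSupport
      · exact (contDiff_v m).continuous.mul hΔ
      · exact hΔc.mul_left
    have h4 : ∫ z : ℂ, u N m z * Δ φ z = 2 * N * (2 * Real.pi * φ 0) + ∫ z : ℂ, Δ (v m) z * φ z := by
      rw [← h3, ← h2, ← integral_const_mul, ← integral_add (i1.const_mul _) i2]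
      congr 1
      ext z
      unfold u
      ring
    rw [h4, h1]
    ring

/-! ### The solution is not radial -/

lemma not_radial_zero (N : ℝ) (m : ℕ) : ¬ RadialAbout 0 (u N m) := by
  intro H
  set ζ : ℂ := Complex.exp (((Real.pi / (m + 1) : ℝ) : ℂ) * Complex.I) with hζ
  have hn : ‖ζ‖ = 1 := Complex.norm_exp_ofReal_mul_I _
  have hp : ζ ^ (m + 1) = -1 := by
    rw [hζ, ← Complex.exp_nat_mul]
    have : ((m + 1 : ℕ) : ℂ) * (((Real.pi / (m + 1) : ℝ) : ℂ) * Complex.I) = Real.pi * Complex.I := by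
      have h0 : (m : ℂ) + 1 ≠ 0 := by exact_mod_cast Nat.succ_ne_zero m
      push_cast
      field_simp
    rw [this, Complex.exp_pi_mul_I]
  have hζ0 : ζ ≠ 0 := by
    rw [← norm_ne_zero_iff, hn]; norm_num
  have h1 := H 1 ζ one_ne_zero hζ0 (by rw [sub_zero, sub_zero, hn, norm_one])
  unfold u v at h1
  rw [hn, hp, norm_one, one_pow] at h1
  have h2 : ‖(-1 : ℂ) - 1‖ = 2 := by
    rw [show (-1 : ℂ) - 1 = ((-2 : ℝ) : ℂ) by push_cast; ring, Complex.norm_real]
    norm_num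
  rw [h2] at h1
  have h3 : 0 < Real.log (1 + 2 ^ 2) := Real.log_pos (by norm_num)
  simp only [sub_self, norm_zero] at h1
  norm_num at h1 h3
  linarith

lemma not_radial_pos {N : ℝ} (hN : 0 < N) (m : ℕ) {x₀ : ℂ} (hx : x₀ ≠ 0) :
    ¬ RadialAbout x₀ (u N m) := by
  intro H
  have h1 : Tendsto (u N m) (𝓝[≠] 0) atBot := by
    have h2 : Tendsto (fun z : ℂ => Real.log ‖z‖) (𝓝[≠] 0) atBot :=
      Real.tendsto_log_nhdsGT_zero.comp tendsto_norm_nhdsNE_zero
    have h3 : Tendsto (fun z : ℂ => 2 * N * Real.log ‖z‖) (𝓝[≠] 0) atBot :=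
      h2.const_mul_atBot (by positivity)
    have h4 : Tendsto (v m) (𝓝[≠] 0) (𝓝 (v m 0)) :=
      ((contDiff_v m).continuous.tendsto 0).mono_left nhdsWithin_le_nhds
    exact h3.atBot_add h4
  have h2x : 2 * x₀ ≠ 0 := mul_ne_zero two_ne_zero hx
  have hc : ContinuousAt (u N m) (2 * x₀) := by
    unfold u
    apply ContinuousAt.add
    · apply ContinuousAt.mul continuousAt_const
      apply ContinuousAt.log continuous_norm.continuousAt
      exact norm_ne_zero_iff.mpr h2x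
    · exact (contDiff_v m).continuous.continuousAt
  have htend : Tendsto (fun x : ℂ => 2 * x₀ - x) (𝓝[≠] 0) (𝓝 (2 * x₀)) := by
    have hcc : Continuous (fun x : ℂ => 2 * x₀ - x) := by fun_prop
    have := hcc.tendsto 0
    rw [sub_zero] at this
    exact this.mono_left nhdsWithin_le_nhds
  have h5 : Tendsto (fun x : ℂ => u N m (2 * x₀ - x)) (𝓝[≠] 0) (𝓝 (u N m (2 * x₀))) :=
    hc.tendsto.comp htend
  have h6 : Tendsto (u N m) (𝓝[≠] 0) (𝓝 (u N m (2 * x₀))) := by
    refine h5.congr' ?_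
    filter_upwards [self_mem_nhdsWithin, htend.eventually_ne h2x] with x hx0 hx1
    apply H _ _ hx1 hx0
    rw [show 2 * x₀ - x - x₀ = -(x - x₀) by ring, norm_neg]
  exact not_tendsto_nhds_of_tendsto_atBot h1 _ h6

lemma root_of_eq {m : ℕ} {y : ℂ} (h : u 0 m y = -1 - Real.log 2) : ‖y‖ ^ 2 = 1 := by
  unfold u v at h
  have h1 : Real.log (1 + ‖y ^ (m + 1) - 1‖ ^ 2) = 0 := by
    simp only [mul_zero, zero_mul, zero_add] at h
    linarith
  have h2 := pos1 m y
  have h3 : 1 + ‖y ^ (m + 1) - 1‖ ^ 2 = 1 := Real.eq_one_of_pos_of_log_eq_zero h2 h1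
  have h4 : ‖y ^ (m + 1) - 1‖ = 0 := by
    have : ‖y ^ (m + 1) - 1‖ ^ 2 = 0 := by linarith
    exact pow_eq_zero_iff (two_ne_zero) |>.mp this
  have h5 : y ^ (m + 1) = 1 := sub_eq_zero.mp (norm_eq_zero.mp h4)
  have h6 : ‖y‖ ^ (m + 1) = 1 := by rw [← norm_pow, h5, norm_one]
  have h7 : ‖y‖ = 1 := (pow_eq_one_iff_of_nonneg (norm_nonneg _) (Nat.succ_ne_zero m)).mp h6
  rw [h7]; norm_num

lemma u_root {m : ℕ} {y : ℂ} (h : y ^ (m + 1) = 1) : u 0 m y = -1 - Real.log 2 := by
  unfold u v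
  rw [h]
  simp

lemma not_radial_N0 {m : ℕ} (hm : 1 ≤ m) {x₀ : ℂ} (hx : x₀ ≠ 0) :
    ¬ RadialAbout x₀ (u 0 m) := by
  intro H
  -- a root of unity different from x₀
  obtain ⟨ζ, hζ1, hζ2⟩ : ∃ ζ : ℂ, ζ ^ (m + 1) = 1 ∧ ζ ≠ x₀ := by
    by_cases h1 : (1 : ℂ) = x₀
    · have hprim := Complex.isPrimitiveRoot_exp (m + 1) (Nat.succ_ne_zero m)
      refine ⟨_, hprim.pow_eq_one, ?_⟩
      rw [← h1]
      exact hprim.ne_one (by omega)
    · exact ⟨1, one_pow _, h1⟩
  have hζ0 : ζ ≠ 0 := by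
    intro h
    rw [h] at hζ1
    simp at hζ1
  set w := ζ - x₀ with hw
  have hw0 : w ≠ 0 := sub_ne_zero.mpr hζ2
  have key : ∀ η : ℂ, ‖η‖ = 1 → x₀ + η * w ≠ 0 → ‖x₀ + η * w‖ ^ 2 = 1 := by
    intro η hη hne
    apply root_of_eq (m := m)
    rw [← u_root hζ1]
    apply H _ _ hne hζ0
    rw [add_sub_cancel_left, norm_mul, hη, one_mul]
  have hns : ∀ z : ℂ, ‖z‖ ^ 2 = z.re ^ 2 + z.im ^ 2 := by
    intro w
    rw [← Complex.normSq_eq_norm_sq, Complex.normSq_apply]; ring
  have k1 := key 1 (by simp) (by rw [one_mul, hw]; simpa using hζ0)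
  have hxw : ¬ (x₀.re * w.re + x₀.im * w.im = 0 ∧ x₀.im * w.re - x₀.re * w.im = 0) := by
    rintro ⟨h1, h2⟩
    have h3 : (x₀.re ^ 2 + x₀.im ^ 2) * (w.re ^ 2 + w.im ^ 2) = 0 := by
      have : (x₀.re ^ 2 + x₀.im ^ 2) * (w.re ^ 2 + w.im ^ 2)
        = (x₀.re * w.re + x₀.im * w.im) ^ 2 + (x₀.im * w.re - x₀.re * w.im) ^ 2 := by ring
      rw [this, h1, h2]; ring
    rw [← hns, ← hns] at h3
    rcases mul_eq_zero.mp h3 with h4 | h4
    · exact hx (norm_eq_zero.mp (pow_eq_zero_iff two_ne_zero |>.mp h4))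
    · exact hw0 (norm_eq_zero.mp (pow_eq_zero_iff two_ne_zero |>.mp h4))
  have hI : ‖(-Complex.I : ℂ)‖ = 1 := by rw [norm_neg, Complex.norm_I]
  apply hxw
  simp only [hns, Complex.add_re, Complex.add_im, Complex.mul_re, Complex.mul_im, Complex.one_re,
    Complex.one_im] at k1
  have hre0 : ∀ z : ℂ, z ≠ 0 → 0 < z.re ^ 2 + z.im ^ 2 := by
    intro z hz
    rw [← hns]
    have := norm_pos_iff.mpr hz
    positivity
  by_cases c1 : x₀ + (-1) * w = 0
  · have hxw' : x₀ = w := by linear_combination c1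
    have n1 : x₀ + Complex.I * w ≠ 0 := by
      rw [hxw', show w + Complex.I * w = (1 + Complex.I) * w by ring]
      apply mul_ne_zero _ hw0
      intro h
      have := congrArg Complex.re h
      simp at this
    have n2 : x₀ + (-Complex.I) * w ≠ 0 := by
      rw [hxw', show w + (-Complex.I) * w = (1 - Complex.I) * w by ring]
      apply mul_ne_zero _ hw0
      intro h
      have := congrArg Complex.re h
      simp at this
    have k2 := key Complex.I Complex.norm_I n1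
    have k3 := key (-Complex.I) hI n2
    simp only [hns, Complex.add_re, Complex.add_im, Complex.mul_re, Complex.mul_im, Complex.I_re,
      Complex.I_im, Complex.neg_re, Complex.neg_im] at k2 k3
    constructor <;> nlinarith
  · have k2 := key (-1) (by simp) c1
    simp only [hns, Complex.add_re, Complex.add_im, Complex.mul_re, Complex.mul_im, Complex.neg_re,
      Complex.neg_im, Complex.one_re, Complex.one_im] at k2
    by_cases c2 : x₀ + Complex.I * w = 0
    · have n2 : x₀ + (-Complex.I) * w ≠ 0 := by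
        have : x₀ = -Complex.I * w := by linear_combination c2
        rw [this, show -Complex.I * w + -Complex.I * w = (-2 * Complex.I) * w by ring]
        apply mul_ne_zero _ hw0
        simp
      have k3 := key (-Complex.I) hI n2
      simp only [hns, Complex.add_re, Complex.add_im, Complex.mul_re, Complex.mul_im, Complex.I_re,
        Complex.I_im, Complex.neg_re, Complex.neg_im] at k3
      constructor <;> nlinarith
    · have k3 := key Complex.I Complex.norm_I c2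
      simp only [hns, Complex.add_re, Complex.add_im, Complex.mul_re, Complex.mul_im, Complex.I_re,
        Complex.I_im, Complex.neg_re, Complex.neg_im] at k3
      constructor <;> nlinarith

lemma not_radial {N : ℝ} (hN : 0 ≤ N) {m : ℕ} (hm : 1 ≤ m) (x₀ : ℂ) :
    ¬ RadialAbout x₀ (u N m) := by
  by_cases hx : x₀ = 0
  · subst hx; exact not_radial_zero N m
  · rcases hN.eq_or_lt with rfl | hN'
    · exact not_radial_N0 hm hx
    · exact not_radial_pos hN' m hx

lemma main (N b : ℝ) (hN : 0 ≤ N) (hb : -1 < b) (m : ℕ) (hm : 1 ≤ m) (hmb : (m : ℝ) = N + b) :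
    ∃ c : ℝ, 0 < c ∧ Hypotheses (P c b) q ∧ ∃ u : ℂ → ℝ, IsSolution N (P c b) q u ∧
      (∀ z ≠ 0, u z < 0) ∧ ∀ x₀, ¬ RadialAbout x₀ u := by
  have hNm : N ≤ m + 1 := by linarith
  have hc : 0 < 16 * (m + 1 : ℝ) ^ 2 * Real.exp 1 := by positivity
  exact ⟨_, hc, hyp _ b hc hb, u N m, isSolution hN hNm hmb,
    fun z hz => by linarith [u_le hN hNm hz], not_radial hN hm⟩

/-- Negative solutions need not be radially symmetric: for every `N ≥ 0` there are `p, q` satisfying
(H1)-(H8) and a negative solution which is not radially symmetric about any point; for integers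
`N ≥ 1` one may take `p` constant. -/
theorem result :
    (∀ N : ℝ, 0 ≤ N → ∃ p q : ℝ → ℝ, Hypotheses p q ∧ ∃ u : ℂ → ℝ, IsSolution N p q u ∧
      (∀ z ≠ 0, u z < 0) ∧ ∀ x₀, ¬ RadialAbout x₀ u) ∧
    (∀ N : ℕ, 1 ≤ N → ∃ (c : ℝ) (q : ℝ → ℝ), 0 < c ∧ Hypotheses (fun _ => c) q ∧
      ∃ u : ℂ → ℝ, IsSolution N (fun _ => c) q u ∧
      (∀ z ≠ 0, u z < 0) ∧ ∀ x₀, ¬ RadialAbout x₀ u) := by
  constructor
  · intro N hN
    have h1 := Nat.lt_floor_add_one N
    have h2 := Nat.floor_le hN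
    obtain ⟨c, -, h3, h4⟩ := main N ((⌊N⌋₊ + 1 : ℕ) - N) hN (by push_cast; linarith)
      (⌊N⌋₊ + 1) (by omega) (by ring)
    exact ⟨_, _, h3, h4⟩
  · intro N hN
    obtain ⟨c, hc, h3, h4⟩ := main N 0 (by positivity) (by norm_num) N hN (by ring)
    have h5 : P c 0 = fun _ => c := by
      ext r; simp [P]
    rw [h5] at h3 h4
    exact ⟨c, q, hc, h3, h4⟩

end Pool.Agent.Results.MP_ad2fa1_an.NonRadial
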